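import Pool.Agent.Helper10.UT.U
import Pool.Agent.Helper10.UT.KeyN
import Pool.Agent.Helper13.SX.N7
import Pool.Agent.Helper13.TQ.N7

/-!
# Project UT: the complete intersection curves with a section
-/

universe u

namespace Pool.Agent.UT

open MvPolynomial Pool.Agent.PL Pool.Agent.BT Pool.Agent.SX Pool.Agent.OPG Pool.Agent.OPN

/-- **Linear systems of complete intersections, one polynomial for all base fields.**  Here `p` is any divisor of
the degree `d`. -/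
theorem closed_curvesT {F₀ k₀ : Type u} [Field F₀] [CharZero F₀] [Field k₀] [Algebra F₀ k₀]
    (hk₀ : ∃ S : Finset k₀, Subfield.closure (S : Set k₀) = ⊤) {p d : ℕ} (hp : 0 < p)
    (hpd : p ∣ d) (hd3 : 3 ≤ d) {m : ℕ} {w : Fin (m + 1) → k₀} {B : Prop} {i l : Fin (m + 1)}
    (hT : Transcendental F₀ (w i / w l))
    (hB : B → ∃ i j l : Fin (m + 1), AlgebraicIndependent F₀ ![w i / w l, w j / w l])
    {N t : ℕ} {ds : Fin t → ℕ} {U : Type}
    [Fintype U] {e : U → ℕ} {hh : ∀ u, MonV (N + 2) (e u) → k₀} (hNoe : NoeV ds hh) :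
    IsU F₀ k₀ B fun F k _ _ _ _ (a : IxV (N + 2) d ds × Fin (m + 1) → F) =>
      BT.HasSecV p (mainS (sysW (algebraMap k₀ k ∘ w) a))
        (relS (othS (sysW (algebraMap k₀ k ∘ w) a)) fun u q => algebraMap k₀ k (hh u q)) := by
  obtain ⟨r, hr⟩ := hpd
  have h1 := IsU.bex (F₀ := F₀) (k₀ := k₀) (B := B) (Finset.univ : Finset (Fin p))
    (A := fun ν F k _ _ _ _ (a : IxV (N + 2) d ds × Fin (m + 1) → F) => 0 < (ν : ℕ) ∧
      HasSecX p ν (mainS (sysW (algebraMap k₀ k ∘ w) a))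
        (relS (othS (sysW (algebraMap k₀ k ∘ w) a)) fun u q => algebraMap k₀ k (hh u q)))
    (fun ν _ => by
      by_cases hν : 0 < (ν : ℕ)
      · have key1 : KeyV1 k₀ (I := IxV (N + 2) d ds) fun k' _ ι f =>
            HasSecX p ν (mainS f) (relS (othS f) fun u q => ι (hh u q)) :=
          keyV1_of_noe hp (Nat.not_dvd_of_pos_of_lt hν ν.2) hr hd3 hNoe
        have key : KeyV k₀ (I := IxV (N + 2) d ds) fun k' _ ι f =>
            HasSecX p ν (mainS f) (relS (othS f) fun u q => ι (hh u q)) :=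
          @keyV_of_keyV1 _ _ _ _ (fun k' _ ι c a _ h => hasSecX_smul c a h) @key1
        obtain ⟨Φ, hΦ, hΦB, hΦa⟩ := isU_of_keyV @key hk₀ hT hB
        refine ⟨Φ, hΦ, hΦB, ?_⟩
        intro F k _ _ _ _ _ _ _ _ hF hk hfree a ha
        exact hΦa F k hF hk (fun hx => hfree hx) a ha.2
      · refine IsU.empty.mono ?_
        exact fun F k _ _ _ _ _ _ _ _ a ha => hν ha.1)
  refine h1.mono ?_
  intro F k _ _ _ _ _ _ _ _ a ha
  obtain ⟨ν, hν1, hν2, h2⟩ := hasSecX_of_hasSecV hp ha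
  exact ⟨⟨ν, hν2⟩, Finset.mem_univ _, hν1, h2⟩

/-- **Linear systems of complete intersections, two quadrics, one polynomial for all base fields.** -/
theorem closed_curvesQT {F₀ k₀ : Type u} [Field F₀] [CharZero F₀] [Field k₀] [Algebra F₀ k₀]
    (hk₀ : ∃ S : Finset k₀, Subfield.closure (S : Set k₀) = ⊤)
    {m : ℕ} {w : Fin (m + 1) → k₀} {B : Prop} {i l : Fin (m + 1)}
    (hT : Transcendental F₀ (w i / w l))
    (hB : B → ∃ i j l : Fin (m + 1), AlgebraicIndependent F₀ ![w i / w l, w j / w l])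
    {N t : ℕ} (ht : t ≤ N)
    {ds : Fin t → ℕ} {s₀ : Fin t} (hs₀ : ds s₀ = 2) {U : Type} [Fintype U] {e : U → ℕ}
    {hh : ∀ u, MonV (N + 2) (e u) → k₀} (hcert : ∃ c, 1 ≤ c ∧ TQ.CertV ht hh c) :
    IsU F₀ k₀ B fun F k _ _ _ _ (a : IxV (N + 2) 2 ds × Fin (m + 1) → F) =>
      HasSecV 2 (mainS (sysW (algebraMap k₀ k ∘ w) a))
        (relS (othS (sysW (algebraMap k₀ k ∘ w) a)) fun u q => algebraMap k₀ k (hh u q)) := by
  obtain ⟨c, hc, hcert⟩ := hcert
  have key1 : KeyV1 k₀ (I := IxV (N + 2) 2 ds) fun k' _ ι f =>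
      HasSecV 2 (mainS f) (relS (othS f) fun u q => ι (hh u q)) :=
    keyV1_of_cert ht hs₀ hc hcert
  have key : KeyV k₀ (I := IxV (N + 2) 2 ds) fun k' _ ι f =>
      HasSecV 2 (mainS f) (relS (othS f) fun u q => ι (hh u q)) :=
    @keyV_of_keyV1 _ _ _ _ (fun k' _ ι c a _ h => hasSecV_smul c a h) @key1
  obtain ⟨Φ, hΦ, hΦB, hΦa⟩ := isU_of_keyV @key hk₀ hT hB
  refine ⟨Φ, hΦ, hΦB, ?_⟩
  intro F k _ _ _ _ _ _ _ _ hF hk hfree a ha
  exact hΦa F k hF hk (fun hx => hfree hx) a ha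

end Pool.Agent.UT
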