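import Pool.Agent.Helper37.UT.CurvesT
import Pool.Agent.Helper37.OPG.U3

/-!
# Project UT: the final assembly for complete intersection curves
-/

universe u v

namespace Pool.Agent.UT

open MvPolynomial Pool.Agent.PL Pool.Agent.BT Pool.Agent.TQ Pool.Agent.Helper91.Sect
  Pool.Agent.OPG

/-- one form -/
theorem closed_stepT {F₀ k₀ : Type u} [Field F₀] [CharZero F₀] [Field k₀] [Algebra F₀ k₀]
    (hk₀ : ∃ S : Finset k₀, Subfield.closure (S : Set k₀) = ⊤) {p : ℕ} (hp : 0 < p)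
    {m : ℕ} {w : Fin (m + 1) → k₀} {B : Prop} {i l' : Fin (m + 1)}
    (hT : Transcendental F₀ (w i / w l')) (hw : w l' ≠ 0)
    (hB : B → ∃ i j l : Fin (m + 1), AlgebraicIndependent F₀ ![w i / w l, w j / w l])
    {N t : ℕ} (ht : t ≤ N) {d : Fin (t + 1) → ℕ} (s₀ : Fin (t + 1)) (hpd : p ∣ d s₀)
    (hd3 : 3 ≤ d s₀) {U : Type} [Fintype U] {e : U → ℕ} (h : U → MvPolynomial (Fin (N + 3)) k₀)
    (hh : ∀ u, (h u).IsHomogeneous (e u)) (l : Fin (t + 3) → Fin (N + 3) → k₀)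
    (hl : ∀ (L : Type u) [Field L] [Algebra k₀ L] (P : Fin (N + 3) → L),
      (∀ i, ∑ j, algebraMap k₀ L (l i j) * P j = 0) → (∀ u, aeval P (h u) = 0) → P = 0) :
    IsU F₀ k₀ B fun F k _ _ _ _ (a : IxP (N + 2) d × Fin (m + 1) → F) =>
      HasSecP p (sysW (algebraMap k₀ k ∘ w) a) fun u => map (algebraMap k₀ k) (h u) := by
  classical
  have : CharZero k₀ := charZero_of_injective_algebraMap (algebraMap F₀ k₀).injective
  obtain ⟨g, c, hg, hc, hcert⟩ := exists_coord ht h hh l hl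
  obtain ⟨g0, hg0⟩ := exists_g0 k₀ (fun s => d (s₀.succAbove s))
    (fun s : Fin t => ((Fin.natAdd 2 (Fin.castLE ht s)).cast (by omega) : Fin (N + 2)))
  obtain ⟨c', hNoe⟩ := noe_of_cert ht hc (h := fun u => dehom (e u) (chg g (h u))) hcert hg0
  have hA1 := closed_curvesT hk₀ hp hpd hd3 hT hB (hh := fun u => dehom (e u) (chg g (h u)))
    ⟨g0, c', hNoe⟩
  obtain ⟨M, hM, hA2⟩ := closed_finGU (F₀ := F₀) (d := d s₀) hk₀ hNoe hw
  have h1 := IsU.comapLin (E := Fin (m + 1)) (trE F₀ (N + 2) d s₀ hg)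
    (fun F _ => trA F (N + 2) d s₀ g) (fun F _ _ v i' => trA_map (algebraMap F₀ F) g v i')
    (hA1.or (IsU.of_hyp hA2))
  refine h1.mono ?_
  intro F k _ _ _ _ _ _ _ _ a ha
  have : CharZero F := charZero_of_injective_algebraMap (algebraMap F₀ F).injective
  have : CharZero k := charZero_of_injective_algebraMap (algebraMap F k).injective
  have h2 : trA k (N + 2) d s₀ g (sysW (algebraMap k₀ k ∘ w) a) = sysW (algebraMap k₀ k ∘ w)
      (fun q : IxV (N + 2) (d s₀) (fun s => d (s₀.succAbove s)) × Fin (m + 1) =>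
        trA F (N + 2) d s₀ g (fun i => a (i, q.2)) q.1) := trA_sysW _ a g
  have h3 : (fun u => dehom (e u) (chg g (map (algebraMap k₀ k) (h u)))) =
      fun u q => algebraMap k₀ k (dehom (e u) (chg g (h u)) q) := by
    funext u q
    rw [← dehom_map, map_chg]
  by_cases hfin : FinG (mainS (trA k (N + 2) d s₀ g (sysW (algebraMap k₀ k ∘ w) a)))
      (relS (othS (trA k (N + 2) d s₀ g (sysW (algebraMap k₀ k ∘ w) a)))
        fun u => dehom (e u) (chg g (map (algebraMap k₀ k) (h u)))) M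
  · left
    have h4 := hasSecV_of_hasSecP (fun u => (hh u).map (algebraMap k₀ k)) hg hM hfin ha
    rw [h2, h3] at h4
    exact h4
  · right
    rw [h2, h3] at hfin
    exact hfin

/-- two quadrics, `p = 2` -/
theorem closed_stepQT {F₀ k₀ : Type u} [Field F₀] [CharZero F₀] [Field k₀] [Algebra F₀ k₀]
    (hk₀ : ∃ S : Finset k₀, Subfield.closure (S : Set k₀) = ⊤)
    {m : ℕ} {w : Fin (m + 1) → k₀} {B : Prop} {i l' : Fin (m + 1)}
    (hT : Transcendental F₀ (w i / w l')) (hw : w l' ≠ 0)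
    (hB : B → ∃ i j l : Fin (m + 1), AlgebraicIndependent F₀ ![w i / w l, w j / w l])
    {N t : ℕ} (ht : t ≤ N) {d : Fin (t + 1) → ℕ} {s₀ s₁ : Fin (t + 1)} (hss : s₁ ≠ s₀)
    (hd₀ : d s₀ = 2) (hd₁ : d s₁ = 2) {U : Type} [Fintype U] {e : U → ℕ}
    (h : U → MvPolynomial (Fin (N + 3)) k₀)
    (hh : ∀ u, (h u).IsHomogeneous (e u)) (l : Fin (t + 3) → Fin (N + 3) → k₀)
    (hl : ∀ (L : Type u) [Field L] [Algebra k₀ L] (P : Fin (N + 3) → L),
      (∀ i, ∑ j, algebraMap k₀ L (l i j) * P j = 0) → (∀ u, aeval P (h u) = 0) → P = 0) :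
    IsU F₀ k₀ B fun F k _ _ _ _ (a : IxP (N + 2) d × Fin (m + 1) → F) =>
      HasSecP 2 (sysW (algebraMap k₀ k ∘ w) a) fun u => map (algebraMap k₀ k) (h u) := by
  classical
  have : CharZero k₀ := charZero_of_injective_algebraMap (algebraMap F₀ k₀).injective
  obtain ⟨g, c, hg, hc, hcert⟩ := exists_coord ht h hh l hl
  obtain ⟨g0, hg0⟩ := exists_g0 k₀ (fun s => d (s₀.succAbove s))
    (fun s : Fin t => ((Fin.natAdd 2 (Fin.castLE ht s)).cast (by omega) : Fin (N + 2)))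
  obtain ⟨c', hNoe⟩ := noe_of_cert ht hc (h := fun u => dehom (e u) (chg g (h u))) hcert hg0
  obtain ⟨s', hs'⟩ := Fin.exists_succAbove_eq hss
  have hA1 : ∀ D : ℕ, D = 2 → IsU F₀ k₀ B fun F k _ _ _ _
      (a : IxV (N + 2) D (fun s => d (s₀.succAbove s)) × Fin (m + 1) → F) =>
      HasSecV 2 (mainS (sysW (algebraMap k₀ k ∘ w) a))
        (relS (othS (sysW (algebraMap k₀ k ∘ w) a))
          fun u q => algebraMap k₀ k (dehom (e u) (chg g (h u)) q)) := by
    rintro _ rfl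
    exact closed_curvesQT hk₀ hT hB ht (ds := fun s => d (s₀.succAbove s)) (s₀ := s')
      (by rw [hs', hd₁]) ⟨c, hc, hcert⟩
  obtain ⟨M, hM, hA2⟩ := closed_finGU (F₀ := F₀) (d := d s₀) hk₀ hNoe hw
  have h1 := IsU.comapLin (E := Fin (m + 1)) (trE F₀ (N + 2) d s₀ hg)
    (fun F _ => trA F (N + 2) d s₀ g) (fun F _ _ v i' => trA_map (algebraMap F₀ F) g v i')
    ((hA1 (d s₀) hd₀).or (IsU.of_hyp hA2))
  refine h1.mono ?_
  intro F k _ _ _ _ _ _ _ _ a ha
  have : CharZero F := charZero_of_injective_algebraMap (algebraMap F₀ F).injective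
  have : CharZero k := charZero_of_injective_algebraMap (algebraMap F k).injective
  have h2 : trA k (N + 2) d s₀ g (sysW (algebraMap k₀ k ∘ w) a) = sysW (algebraMap k₀ k ∘ w)
      (fun q : IxV (N + 2) (d s₀) (fun s => d (s₀.succAbove s)) × Fin (m + 1) =>
        trA F (N + 2) d s₀ g (fun i => a (i, q.2)) q.1) := trA_sysW _ a g
  have h3 : (fun u => dehom (e u) (chg g (map (algebraMap k₀ k) (h u)))) =
      fun u q => algebraMap k₀ k (dehom (e u) (chg g (h u)) q) := by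
    funext u q
    rw [← dehom_map, map_chg]
  by_cases hfin : FinG (mainS (trA k (N + 2) d s₀ g (sysW (algebraMap k₀ k ∘ w) a)))
      (relS (othS (trA k (N + 2) d s₀ g (sysW (algebraMap k₀ k ∘ w) a)))
        fun u => dehom (e u) (chg g (map (algebraMap k₀ k) (h u)))) M
  · left
    have h4 := hasSecV_of_hasSecP (fun u => (hh u).map (algebraMap k₀ k)) hg hM hfin ha
    rw [h2, h3] at h4
    exact h4
  · right
    rw [h2, h3] at hfin
    exact hfin

/-- **Linear systems of complete intersections in a fixed projective variety.** -/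
theorem bertiniT {F₀ k₀ : Type u} [Field F₀] [CharZero F₀] [Field k₀] [Algebra F₀ k₀]
    (hk₀ : ∃ S : Finset k₀, Subfield.closure (S : Set k₀) = ⊤)
    {m : ℕ} {w : Fin (m + 1) → k₀} {B : Prop} {i l' : Fin (m + 1)}
    (hT : Transcendental F₀ (w i / w l'))
    (hB : B → ∃ i j l : Fin (m + 1), AlgebraicIndependent F₀ ![w i / w l, w j / w l])
    {M t : ℕ} (ht : t + 1 ≤ M) {d : Fin t → ℕ} {U : Type} [Fintype U] {e : U → ℕ}
    (h : U → MvPolynomial (Fin (M + 1)) k₀) (hh : ∀ u, (h u).IsHomogeneous (e u))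
    (l : Fin (t + 2) → Fin (M + 1) → k₀)
    (hl : ∀ (L : Type u) [Field L] [Algebra k₀ L] (P : Fin (M + 1) → L),
      (∀ i, ∑ j, algebraMap k₀ L (l i j) * P j = 0) → (∀ u, aeval P (h u) = 0) → P = 0) :
    IsU F₀ k₀ B fun F k _ _ _ _ (a : IxP M d × Fin (m + 1) → F) =>
      (∃ s, 3 ≤ d s ∧ HasSecP (d s) (sysW (algebraMap k₀ k ∘ w) a)
        fun u => map (algebraMap k₀ k) (h u)) ∨
      (∃ s s', s ≠ s' ∧ d s = 2 ∧ d s' = 2 ∧ HasSecP 2 (sysW (algebraMap k₀ k ∘ w) a)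
        fun u => map (algebraMap k₀ k) (h u)) := by
  classical
  have hw : w l' ≠ 0 := by
    intro h0
    rw [h0, div_zero] at hT
    exact hT isAlgebraic_zero
  rcases t with _ | t
  · refine IsU.empty.mono ?_
    intro F k _ _ _ _ _ _ _ _ a ha
    rcases ha with ⟨s, -⟩ | ⟨s, -⟩
    · exact s.elim0
    · exact s.elim0
  obtain ⟨N, rfl⟩ : ∃ N, M = N + 2 := ⟨M - 2, by omega⟩
  have h1 := IsU.bex (F₀ := F₀) (k₀ := k₀) (B := B) (Finset.univ : Finset (Fin (t + 1)))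
    (A := fun s F k _ _ _ _ (a : IxP (N + 2) d × Fin (m + 1) → F) =>
      3 ≤ d s ∧ HasSecP (d s) (sysW (algebraMap k₀ k ∘ w) a)
        fun u => map (algebraMap k₀ k) (h u)) (by
    intro s _
    by_cases hds : 3 ≤ d s
    · refine (closed_stepT hk₀ (by omega) hT hw hB (by omega) s (dvd_refl _) hds h hh l hl).mono ?_
      exact fun F k _ _ _ _ _ _ _ _ a ha => ha.2
    · refine IsU.empty.mono ?_
      exact fun F k _ _ _ _ _ _ _ _ a ha => hds ha.1)
  have h2 := IsU.bex (F₀ := F₀) (k₀ := k₀) (B := B)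
    (Finset.univ : Finset (Fin (t + 1) × Fin (t + 1)))
    (A := fun s F k _ _ _ _ (a : IxP (N + 2) d × Fin (m + 1) → F) =>
      s.1 ≠ s.2 ∧ d s.1 = 2 ∧ d s.2 = 2 ∧ HasSecP 2 (sysW (algebraMap k₀ k ∘ w) a)
        fun u => map (algebraMap k₀ k) (h u)) (by
    rintro ⟨s₀, s₁⟩ -
    by_cases hs : s₀ ≠ s₁ ∧ d s₀ = 2 ∧ d s₁ = 2
    · refine (closed_stepQT hk₀ hT hw hB (by omega) hs.1.symm hs.2.1 hs.2.2 h hh l hl).mono ?_
      exact fun F k _ _ _ _ _ _ _ _ a ha => ha.2.2.2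
    · refine IsU.empty.mono ?_
      exact fun F k _ _ _ _ _ _ _ _ a ha => hs ⟨ha.1, ha.2.1, ha.2.2.1⟩)
  refine (h1.or h2).mono ?_
  intro F k _ _ _ _ _ _ _ _ a ha
  rcases ha with ⟨s, hs⟩ | ⟨s, s', hs⟩
  · exact Or.inl ⟨s, Finset.mem_univ _, hs⟩
  · exact Or.inr ⟨(s, s'), Finset.mem_univ _, hs⟩

end Pool.Agent.UT
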